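import Pool.Agent.MVO.StmtsA

namespace Pool.Agent.Helper92_MVO

open Pool.Agent.Helper14_MV Pool.Agent.Helper2_MV Pool.Agent.MVO

theorem gb_nil (n : ℕ → ℕ) : gb n [] = [] := rfl

theorem gb_cons (n : ℕ → ℕ) (d : ℕ) (D : List ℕ) :
    gb n (d :: D) = List.replicate (n d) d ++ gb n D := by
  unfold gb
  rw [List.flatMap_cons]

theorem gb_append (n : ℕ → ℕ) (A B : List ℕ) : gb n (A ++ B) = gb n A ++ gb n B := by
  unfold gb
  rw [List.flatMap_append]

theorem mem_gb {n : ℕ → ℕ} {D : List ℕ} {c : ℕ} : c ∈ gb n D ↔ c ∈ D ∧ n c ≠ 0 := by
  unfold gb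
  rw [List.mem_flatMap]
  constructor
  · rintro ⟨d, hd, hc⟩
    rw [List.mem_replicate] at hc
    obtain ⟨h1, h2⟩ := hc
    subst h2
    exact ⟨hd, h1⟩
  · rintro ⟨h1, h2⟩
    exact ⟨c, h1, List.mem_replicate.mpr ⟨h2, rfl⟩⟩

theorem count_gb (n : ℕ → ℕ) (D : List ℕ) (c : ℕ) : (gb n D).count c = n c * D.count c := by
  induction D with
  | nil => simp [gb_nil]
  | cons d D ih =>
    rw [gb_cons, List.count_append, ih, List.count_replicate, List.count_cons]
    by_cases h : d = c
    · subst h
      simp
      ring
    · simp [h]

theorem filter_gb (n : ℕ → ℕ) (p : ℕ → Bool) (D : List ℕ) :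
    (gb n D).filter p = gb n (D.filter p) := by
  induction D with
  | nil => rfl
  | cons d D ih =>
    rw [gb_cons, List.filter_append, ih]
    by_cases h : p d = true
    · rw [List.filter_cons_of_pos h, gb_cons]
      congr 1
      rw [List.filter_eq_self]
      intro a ha
      rw [List.eq_of_mem_replicate ha]
      exact h
    · rw [List.filter_cons_of_neg h]
      have : (List.replicate (n d) d).filter p = [] := by
        rw [List.filter_eq_nil_iff]
        intro a ha
        rw [List.eq_of_mem_replicate ha]
        exact h
      rw [this, List.nil_append]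

theorem gb_filter_zero (n : ℕ → ℕ) (q : ℕ → Bool) (D : List ℕ)
    (h : ∀ z ∈ D, q z = false → n z = 0) : gb n (D.filter q) = gb n D := by
  induction D with
  | nil => rfl
  | cons d D ih =>
    have ih' := ih (fun z hz => h z (List.mem_cons_of_mem _ hz))
    by_cases hq : q d = true
    · rw [List.filter_cons_of_pos hq, gb_cons, gb_cons, ih']
    · rw [List.filter_cons_of_neg hq, gb_cons, ih',
        h d (by simp) (by simpa using hq)]
      rfl

theorem last_gen {p : ℕ → Bool} : ∀ (k : ℕ) (B B' : ℕ → List ℕ),
    (∀ c, 2 ≤ c → c ≤ k + 1 → p c = false) →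
    (∀ j ≤ k, ((B j).filter p).getLast? = ((B' j).filter p).getLast? ∨
      ∃ j', j < j' ∧ j' ≤ k ∧ (B j').filter p ≠ [] ∧ (B' j').filter p ≠ []) →
    ((asm k B).filter p).getLast? = ((asm k B').filter p).getLast? := by
  intro k
  induction k with
  | zero =>
    intro B B' _ h
    rcases h 0 le_rfl with h1 | ⟨j', h1, h2, _⟩
    · exact h1
    · omega
  | succ k ih =>
    intro B B' hp h
    have e : ∀ C : ℕ → List ℕ, (asm (k + 1) C).filter p
        = (asm k C).filter p ++ (C (k + 1)).filter p := by
      intro C
      simp only [asm]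
      rw [List.filter_append, List.filter_cons_of_neg (by
        rw [hp (k + 2) (by omega) (by omega)]
        simp)]
    rw [e, e, List.getLast?_append, List.getLast?_append]
    have h1 : ((B (k + 1)).filter p).getLast? = ((B' (k + 1)).filter p).getLast? := by
      rcases h (k + 1) le_rfl with h2 | ⟨j', h2, h3, _⟩
      · exact h2
      · omega
    rw [← h1]
    by_cases hB : (B (k + 1)).filter p = []
    · rw [hB]
      simp only [List.getLast?_nil, Option.none_or]
      refine ih B B' (fun c h2 h3 => hp c h2 (by omega)) ?_
      intro j hj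
      rcases h j (by omega) with h2 | ⟨j', h2, h3, h4, h5⟩
      · exact Or.inl h2
      · refine Or.inr ⟨j', h2, ?_, h4, h5⟩
        by_contra hcon
        have : j' = k + 1 := by omega
        rw [this] at h4
        exact h4 hB
    · rw [List.getLast?_eq_some_getLast hB]
      rfl

theorem nfa_gw (hnfa : NfaStmt) {β : FIC} (hA : ClA β) {k : ℕ} {X : List ℕ} {n : ℕ → ℕ → ℕ}
    {D D' : ℕ → List ℕ} (hD : GData k X n D) (hD' : ∀ j, (D' j).Perm X)
    (hlast : ∀ c d, NS k c → NS k d →
      ((gw k n D).filter (fun x => decide (x = c ∨ x = d))).getLast? =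
        ((gw k n D').filter (fun x => decide (x = c ∨ x = d))).getLast?) :
    RR β (gw k n D) (gw k n D') := by
  refine hnfa β hA k (fun j => gb (n j) (D j)) (fun j => gb (n j) (D' j)) ?_ ?_ ?_ ?_ hlast
  · intro j hj c hc
    exact hD.ns c ((hD.perm j).subset (mem_gb.mp hc).1)
  · intro j hj c hc
    exact hD.ns c ((hD' j).subset (mem_gb.mp hc).1)
  · intro j hj c
    show (gb (n j) (D j)).count c = (gb (n j) (D' j)).count c
    rw [count_gb, count_gb, (hD.perm j).count_eq, (hD' j).count_eq]
  · intro j hj c hc
    have hcX : c ∈ X := (hD.perm j).subset (mem_gb.mp hc).1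
    have h1 : (fun j => (gb (n j) (D j)).count c) = fun j => n j c := by
      funext j
      rw [count_gb, (hD.perm j).count_eq, List.count_eq_one_of_mem hD.nodup hcX, mul_one]
    show 2 ≤ deg k (fun j => (gb (n j) (D j)).count c)
    rw [h1]
    exact hD.mult c hcX

/-- the letters `x`, `y` at the end of all blocks except the block `i` -/
def toEnd (i x y : ℕ) (D : ℕ → List ℕ) : ℕ → List ℕ :=
  fun j => if j = i then D i else (D j).filter (fun z => decide (z ≠ x ∧ z ≠ y)) ++ [x, y]

theorem perm_end {D X : List ℕ} {x y : ℕ} (hp : D.Perm X) (hX : X.Nodup) (hxy : x ≠ y)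
    (hx : x ∈ X) (hy : y ∈ X) :
    (D.filter (fun z => decide (z ≠ x ∧ z ≠ y)) ++ [x, y]).Perm X := by
  refine List.Perm.trans ?_ hp
  rw [List.perm_iff_count]
  intro a
  have hD : D.Nodup := hp.nodup_iff.mpr hX
  rw [List.count_append]
  by_cases hax : a = x
  · subst hax
    have h1 : (D.filter (fun z => decide (z ≠ a ∧ z ≠ y))).count a = 0 := by
      apply List.count_eq_zero_of_not_mem
      intro h
      have := List.of_mem_filter h
      simp at this
    rw [h1, List.count_eq_one_of_mem hD (hp.mem_iff.mpr hx)]
    simp [List.count_cons, hxy.symm]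
  · by_cases hay : a = y
    · subst hay
      have h1 : (D.filter (fun z => decide (z ≠ x ∧ z ≠ a))).count a = 0 := by
        apply List.count_eq_zero_of_not_mem
        intro h
        have := List.of_mem_filter h
        simp at this
      rw [h1, List.count_eq_one_of_mem hD (hp.mem_iff.mpr hy)]
      simp [List.count_cons, hxy]
    · rw [List.count_filter (by simp [hax, hay])]
      have : List.count a [x, y] = 0 := by
        apply List.count_eq_zero_of_not_mem
        simp [hax, hay]
      rw [this, add_zero]

theorem rr_toEnd (hnfa : NfaStmt) {β : FIC} (hA : ClA β) {k : ℕ} {X : List ℕ}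
    {n : ℕ → ℕ → ℕ} {D : ℕ → List ℕ} (hD : GData k X n D) {i x y : ℕ} (hik : i ≤ k)
    (hxy : x ≠ y) (hx : x ∈ X) (hy : y ∈ X) (hix : n i x ≠ 0) (hiy : n i y ≠ 0)
    (hz : ∀ j, i < j → j ≤ k → n j x = 0 ∧ n j y = 0) :
    RR β (gw k n D) (gw k n (toEnd i x y D)) := by
  refine nfa_gw hnfa hA hD ?_ ?_
  · intro j
    unfold toEnd
    by_cases hj : j = i
    · rw [if_pos hj]
      exact hD.perm i
    · rw [if_neg hj]
      exact perm_end (hD.perm j) hD.nodup hxy hx hy
  · intro c d hc hd
    obtain ⟨p, hp⟩ : ∃ p : ℕ → Bool, p = fun x => decide (x = c ∨ x = d) := ⟨_, rfl⟩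
    rw [← hp]
    unfold gw
    refine last_gen k _ _ ?_ ?_
    · intro s h1 h2
      rw [hp]
      simp only [decide_eq_false_iff_not]
      rintro (h3 | h3)
      · exact hc ⟨by omega, by omega⟩
      · exact hd ⟨by omega, by omega⟩
    · intro j hj
      show ((gb (n j) (D j)).filter p).getLast? = ((gb (n j) (toEnd i x y D j)).filter p).getLast?
        ∨ ∃ j', j < j' ∧ j' ≤ k ∧ (gb (n j') (D j')).filter p ≠ [] ∧
          (gb (n j') (toEnd i x y D j')).filter p ≠ []
      by_cases hji : j = i
      · left
        unfold toEnd
        rw [if_pos hji, hji]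
      · rcases Nat.lt_or_gt_of_ne hji with hlt | hgt
        · by_cases hpp : p x = true ∨ p y = true
          · right
            have h1 : (gb (n i) (D i)).filter p ≠ [] := by
              rcases hpp with h2 | h2
              · have h3 : x ∈ (gb (n i) (D i)).filter p :=
                  List.mem_filter.mpr ⟨mem_gb.mpr ⟨(hD.perm i).mem_iff.mpr hx, hix⟩, h2⟩
                exact List.ne_nil_of_mem h3
              · have h3 : y ∈ (gb (n i) (D i)).filter p :=
                  List.mem_filter.mpr ⟨mem_gb.mpr ⟨(hD.perm i).mem_iff.mpr hy, hiy⟩, h2⟩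
                exact List.ne_nil_of_mem h3
            refine ⟨i, hlt, hik, h1, ?_⟩
            unfold toEnd
            rw [if_pos rfl]
            exact h1
          · left
            have hpx : p x = false := by
              by_contra h1
              exact hpp (Or.inl (by simpa using h1))
            have hpy : p y = false := by
              by_contra h1
              exact hpp (Or.inr (by simpa using h1))
            unfold toEnd
            rw [if_neg hji, filter_gb, filter_gb, List.filter_append]
            have h1 : [x, y].filter p = [] := by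
              simp [hpx, hpy]
            have h2 : ((D j).filter (fun z => decide (z ≠ x ∧ z ≠ y))).filter p
                = (D j).filter p := by
              rw [List.filter_filter]
              refine List.filter_congr fun z _ => ?_
              by_cases hzx : z = x
              · rw [hzx, hpx]
                simp
              · by_cases hzy : z = y
                · rw [hzy, hpy]
                  simp
                · simp [hzx, hzy]
            rw [h1, h2, List.append_nil]
        · left
          obtain ⟨h1, h2⟩ := hz j hgt hj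
          unfold toEnd
          rw [if_neg hji, gb_append]
          have h3 : gb (n j) [x, y] = [] := by
            rw [gb_cons, gb_cons, gb_nil, h1, h2]
            rfl
          rw [h3, List.append_nil, gb_filter_zero]
          intro z _ hq
          by_cases hzx : z = x
          · rw [hzx, h1]
          · by_cases hzy : z = y
            · rw [hzy, h2]
            · simp [hzx, hzy] at hq

theorem blkOk_w2 (k : ℕ) (a b : ℕ → ℕ) (e : ℕ → Bool) :
    BlkOk k (fun j => bl (a j) (b j) (e j)) := by
  intro j _ c hc hs
  have h1 : c = 0 ∨ c = 1 := by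
    simp only [bl] at hc
    split_ifs at hc
    · rcases List.mem_append.mp hc with h | h
      · exact Or.inr (List.eq_of_mem_replicate h)
      · exact Or.inl (List.eq_of_mem_replicate h)
    · rcases List.mem_append.mp hc with h | h
      · exact Or.inl (List.eq_of_mem_replicate h)
      · exact Or.inr (List.eq_of_mem_replicate h)
  omega

theorem rep_flatMap (h : ℕ → List ℕ) (c c' : ℕ) (hc : h c = [c']) (m : ℕ) :
    (List.replicate m c).flatMap h = List.replicate m c' := by
  induction m with
  | zero => rfl
  | succ m ih =>
    rw [List.replicate_succ, List.flatMap_cons, ih, hc, List.replicate_succ]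
    rfl

theorem swa (hnfa : NfaStmt) : SwaStmt := by
  intro β hA ω hle k X n D hD i hik A B x y hDi hex
  have hnd : (A ++ x :: y :: B).Nodup := by
    rw [← hDi]
    exact (hD.perm i).nodup_iff.mpr hD.nodup
  have hxy : x ≠ y := by
    intro h
    have h1 := (List.nodup_append.mp hnd).2.1
    rw [h] at h1
    simp at h1
  have hxX : x ∈ X := (hD.perm i).subset (by rw [hDi]; simp)
  have hyX : y ∈ X := (hD.perm i).subset (by rw [hDi]; simp)
  obtain ⟨D4, hD4⟩ : ∃ D4 : ℕ → List ℕ, D4 = Function.update D i (A ++ y :: x :: B) := ⟨_, rfl⟩
  have hD4i : D4 i = A ++ y :: x :: B := by rw [hD4, Function.update_self]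
  have hD4j : ∀ j, j ≠ i → D4 j = D j := fun j hj => by rw [hD4, Function.update_of_ne hj]
  have hp4 : ∀ j, (D4 j).Perm X := by
    intro j
    by_cases hj : j = i
    · rw [hj, hD4i]
      refine List.Perm.trans ?_ (hD.perm i)
      rw [hDi]
      exact List.Perm.append_left A (List.Perm.swap x y B)
    · rw [hD4j j hj]
      exact hD.perm j
  have hGD4 : GData k X n D4 := ⟨hD.nodup, hD.ns, hD.mult, hp4⟩
  rw [← hD4]
  by_cases h0 : n i x = 0 ∨ n i y = 0
  · have h1 : gw k n D = gw k n D4 := by
      refine asm_congr fun j hj => ?_
      by_cases hji : j = i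
      · rw [hji, hD4i, hDi, gb_append, gb_append, gb_cons, gb_cons, gb_cons, gb_cons]
        rcases h0 with h2 | h2
        · rw [h2]
          simp
        · rw [h2]
          simp
      · rw [hD4j j hji]
    rw [h1]
    exact RR.refl _
  rw [not_or] at h0
  obtain ⟨hix, hiy⟩ := h0
  by_cases h1 : ∃ j, i < j ∧ j ≤ k ∧ (n j x ≠ 0 ∨ n j y ≠ 0)
  · obtain ⟨j0, hj0, hj0k, hj0n⟩ := h1
    refine hle _ _ (nfa_gw hnfa hA hD hp4 ?_)
    intro c d hc hd
    obtain ⟨p, hp⟩ : ∃ p : ℕ → Bool, p = fun x => decide (x = c ∨ x = d) := ⟨_, rfl⟩
    rw [← hp]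
    unfold gw
    refine last_gen k _ _ ?_ ?_
    · intro s h1 h2
      rw [hp]
      simp only [decide_eq_false_iff_not]
      rintro (h3 | h3)
      · exact hc ⟨by omega, by omega⟩
      · exact hd ⟨by omega, by omega⟩
    · intro j hj
      show ((gb (n j) (D j)).filter p).getLast? = ((gb (n j) (D4 j)).filter p).getLast?
        ∨ ∃ j', j < j' ∧ j' ≤ k ∧ (gb (n j') (D j')).filter p ≠ [] ∧
          (gb (n j') (D4 j')).filter p ≠ []
      by_cases hji : j = i
      · by_cases hpp : p x = true ∧ p y = true
        · right
          have h2 : (gb (n j0) (D j0)).filter p ≠ [] := by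
            rcases hj0n with h3 | h3
            · have h4 : x ∈ (gb (n j0) (D j0)).filter p :=
                List.mem_filter.mpr ⟨mem_gb.mpr ⟨(hD.perm j0).mem_iff.mpr hxX, h3⟩, hpp.1⟩
              exact List.ne_nil_of_mem h4
            · have h4 : y ∈ (gb (n j0) (D j0)).filter p :=
                List.mem_filter.mpr ⟨mem_gb.mpr ⟨(hD.perm j0).mem_iff.mpr hyX, h3⟩, hpp.2⟩
              exact List.ne_nil_of_mem h4
          refine ⟨j0, by omega, hj0k, h2, ?_⟩
          rw [hD4j j0 (by omega)]
          exact h2
        · left
          rw [hji, hD4i, hDi, filter_gb, filter_gb, List.filter_append, List.filter_append]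
          have h2 : (x :: y :: B).filter p = (y :: x :: B).filter p := by
            by_cases hpx : p x = true
            · have hpy : ¬ p y = true := fun h => hpp ⟨hpx, h⟩
              rw [List.filter_cons_of_pos hpx, List.filter_cons_of_neg hpy,
                List.filter_cons_of_neg hpy, List.filter_cons_of_pos hpx]
            · by_cases hpy : p y = true
              · rw [List.filter_cons_of_neg hpx, List.filter_cons_of_pos hpy,
                  List.filter_cons_of_pos hpy, List.filter_cons_of_neg hpx]
              · rw [List.filter_cons_of_neg hpx, List.filter_cons_of_neg hpy,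
                  List.filter_cons_of_neg hpy, List.filter_cons_of_neg hpx]
          rw [h2]
      · left
        rw [hD4j j hji]
  · have hz : ∀ j, i < j → j ≤ k → n j x = 0 ∧ n j y = 0 := by
      intro j hj1 hj2
      by_contra hcon
      apply h1
      refine ⟨j, hj1, hj2, ?_⟩
      by_cases h2 : n j x = 0
      · exact Or.inr fun h3 => hcon ⟨h2, h3⟩
      · exact Or.inl h2
    have s1 := hle _ _ (rr_toEnd hnfa hA hD hik hxy hxX hyX hix hiy hz)
    have s3 := hle _ _ (rr_toEnd hnfa hA hGD4 hik hxy hxX hyX hix hiy hz)
    obtain ⟨h, hh⟩ : ∃ h : ℕ → List ℕ, h = fun c => if c = 0 then [x] else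
        if c = 1 then [y] else [c] := ⟨_, rfl⟩
    have h0' : h 0 = [x] := by rw [hh]; rfl
    have h1' : h 1 = [y] := by rw [hh]; rfl
    have s2 := rr_ins ω
      (fun j => if j = i then gb (n i) A else
        gb (n j) ((D j).filter (fun z => decide (z ≠ x ∧ z ≠ y))))
      (fun j => if j = i then gb (n i) B else []) h
      (blkOk_w2 k (fun j => n j x) (fun j => n j y) (fun _ => false))
      (blkOk_w2 k (fun j => n j x) (fun j => n j y) (flp (fun _ => false) i))
      (hex (fun _ => false))
    have e2 : asm k (fun j => (fun j => if j = i then gb (n i) A else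
        gb (n j) ((D j).filter (fun z => decide (z ≠ x ∧ z ≠ y)))) j
        ++ (bl (n j x) (n j y) false).flatMap h
        ++ (fun j => if j = i then gb (n i) B else []) j) = gw k n (toEnd i x y D) := by
      refine asm_congr fun j hj => ?_
      have e3 : (bl (n j x) (n j y) false).flatMap h
          = List.replicate (n j x) x ++ List.replicate (n j y) y := by
        simp only [bl, Bool.false_eq_true, if_false]
        rw [List.flatMap_append, rep_flatMap h 0 x h0', rep_flatMap h 1 y h1']
      rw [e3]
      unfold toEnd
      by_cases hji : j = i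
      · simp only [if_pos hji]
        rw [hDi, hji, gb_append, gb_cons, gb_cons]
        simp [List.append_assoc]
      · simp only [if_neg hji]
        rw [gb_append, gb_cons, gb_cons, gb_nil]
        simp [List.append_assoc]
    have e4 : asm k (fun j => (fun j => if j = i then gb (n i) A else
        gb (n j) ((D j).filter (fun z => decide (z ≠ x ∧ z ≠ y)))) j
        ++ (bl (n j x) (n j y) (flp (fun _ => false) i j)).flatMap h
        ++ (fun j => if j = i then gb (n i) B else []) j) = gw k n (toEnd i x y D4) := by
      refine asm_congr fun j hj => ?_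
      unfold toEnd
      by_cases hji : j = i
      · have e5 : flp (fun _ => false) i j = true := by
          unfold flp
          rw [if_pos hji]
          rfl
        have e3 : (bl (n j x) (n j y) true).flatMap h
            = List.replicate (n j y) y ++ List.replicate (n j x) x := by
          simp only [bl, if_true]
          rw [List.flatMap_append, rep_flatMap h 0 x h0', rep_flatMap h 1 y h1']
        rw [e5, e3]
        simp only [if_pos hji]
        rw [hD4i, hji, gb_append, gb_cons, gb_cons]
        simp [List.append_assoc]
      · have e5 : flp (fun _ => false) i j = false := by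
          unfold flp
          rw [if_neg hji]
        have e3 : (bl (n j x) (n j y) false).flatMap h
            = List.replicate (n j x) x ++ List.replicate (n j y) y := by
          simp only [bl, Bool.false_eq_true, if_false]
          rw [List.flatMap_append, rep_flatMap h 0 x h0', rep_flatMap h 1 y h1']
        rw [e5, e3]
        simp only [if_neg hji]
        rw [hD4j j hji, gb_append, gb_cons, gb_cons, gb_nil]
        simp [List.append_assoc]
    rw [e2, e4] at s2
    exact ω.trans (ω.trans s1 s2) (RR.symm s3)

end Pool.Agent.Helper92_MVO
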