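import Pool.Agent.MVO.StmtsN
import Pool.Agent.MVO.StmtsG2

namespace Pool.Agent.Helper92_MVO

open Pool.Agent.Helper14_MV Pool.Agent.Helper2_MV Pool.Agent.MVO

/-! ### words with one letter -/

theorem cnt_ofList (i : ℕ) (l : List ℕ) : cnt i (FreeMonoid.ofList l) = l.count i := rfl

theorem count_ow_le {k x t : ℕ} (hx : NS k x) (a : ℕ → ℕ) (ht : t ≠ x) :
    (asm k (fun j => List.replicate (a j) x)).count t ≤ 1 := by
  have hB : BlkOk k (fun j => List.replicate (a j) x) := by
    intro j _ c hc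
    rw [List.eq_of_mem_replicate hc]
    exact hx
  by_cases hs : 2 ≤ t ∧ t ≤ k + 1
  · exact (count_sep hB hs.1 hs.2).le
  · rw [count_asm hs]
    have : deg k (fun j => (List.replicate (a j) x).count t) = 0 := by
      unfold deg
      apply Finset.sum_eq_zero
      intro j _
      rw [List.count_replicate]
      simp [Ne.symm ht]
    rw [this]
    exact Nat.zero_le _

theorem count_ow {k x : ℕ} (hx : NS k x) (a : ℕ → ℕ) :
    (asm k (fun j => List.replicate (a j) x)).count x = deg k a := by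
  rw [count_asm hx]
  congr 1
  funext j
  simp

theorem rr_count {β : FIC} (hβ : β ≤ thC3) {u v : List ℕ} (h : RR β u v) {t : ℕ}
    (ht : u.count t ≤ 2) : v.count t = u.count t := by
  have h1 := cnt_thC3 (hβ _ _ h) (i := t) ht
  exact h1

/-! ### substitutions -/

theorem count_flatMap_ge (g : ℕ → List ℕ) (c t : ℕ) (u : List ℕ) :
    u.count c * (g c).count t ≤ (u.flatMap g).count t := by
  induction u with
  | nil => simp
  | cons d u ih =>
    rw [List.flatMap_cons, List.count_append, List.count_cons]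
    by_cases h : d = c
    · subst h
      simp only [beq_self_eq_true, if_true]
      nlinarith
    · have : (d == c) = false := by simpa using h
      rw [this]
      simp only [Bool.false_eq_true, if_false, add_zero]
      omega

theorem flatMap_rep (g : ℕ → List ℕ) (x c s : ℕ) (h : g c = List.replicate s x) (p : ℕ) :
    (List.replicate p c).flatMap g = List.replicate (p * s) x := by
  induction p with
  | zero => simp
  | succ p ih =>
    rw [List.replicate_succ, List.flatMap_cons, ih, h, List.replicate_append_replicate]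
    congr 1
    ring

theorem bl_flatMap (g : ℕ → List ℕ) (x s t : ℕ) (h0 : g 0 = List.replicate s x)
    (h1 : g 1 = List.replicate t x) (p q : ℕ) (e : Bool) :
    (bl p q e).flatMap g = List.replicate (p * s + q * t) x := by
  unfold bl
  cases e
  · simp only [Bool.false_eq_true, if_false]
    rw [List.flatMap_append, flatMap_rep g x 0 s h0, flatMap_rep g x 1 t h1,
      List.replicate_append_replicate]
  · simp only [if_true]
    rw [List.flatMap_append, flatMap_rep g x 0 s h0, flatMap_rep g x 1 t h1,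
      List.replicate_append_replicate, Nat.add_comm]

theorem asm_flatMap_congr (g : ℕ → List ℕ) {k : ℕ} {B B' : ℕ → List ℕ}
    (h : ∀ j ≤ k, (B j).flatMap g = (B' j).flatMap g) :
    (asm k B).flatMap g = (asm k B').flatMap g := by
  induction k with
  | zero => exact h 0 (le_refl 0)
  | succ k ih =>
    simp only [asm]
    rw [List.flatMap_append, List.flatMap_append, ih (fun j hj => h j (by omega)),
      List.flatMap_cons, List.flatMap_cons, h (k + 1) (le_refl _)]

theorem w2_flatMap (g : ℕ → List ℕ) (x s t : ℕ) (h0 : g 0 = List.replicate s x)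
    (h1 : g 1 = List.replicate t x) (k : ℕ) (a b : ℕ → ℕ) (e e' : ℕ → Bool) :
    (w2 k a b e).flatMap g = (w2 k a b e').flatMap g := by
  unfold w2
  apply asm_flatMap_congr
  intro j _
  rw [bl_flatMap g x s t h0 h1, bl_flatMap g x s t h0 h1]

theorem ns01 (k : ℕ) {c : ℕ} (h : c = 0 ∨ c = 1) : NS k c := by
  rintro ⟨h1, _⟩
  omega

theorem mem_bl {p q c : ℕ} {e : Bool} (h : c ∈ bl p q e) : c = 0 ∨ c = 1 := by
  unfold bl at h
  cases e
  · simp only [Bool.false_eq_true, if_false, List.mem_append] at h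
    rcases h with h | h
    · exact Or.inl (List.eq_of_mem_replicate h)
    · exact Or.inr (List.eq_of_mem_replicate h)
  · simp only [if_true, List.mem_append] at h
    rcases h with h | h
    · exact Or.inr (List.eq_of_mem_replicate h)
    · exact Or.inl (List.eq_of_mem_replicate h)

theorem count_bl (p q : ℕ) (e : Bool) : (bl p q e).count 0 = p ∧ (bl p q e).count 1 = q := by
  unfold bl
  cases e <;> simp [List.count_append, List.count_replicate]

theorem filter_bl0 (p q : ℕ) (e : Bool) :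
    (bl p q e).filter (fun c => decide (c ≠ 1)) = List.replicate p 0 := by
  unfold bl
  cases e <;> simp

theorem filter_bl1 (p q : ℕ) (e : Bool) :
    (bl p q e).filter (fun c => decide (c ≠ 0)) = List.replicate q 1 := by
  unfold bl
  cases e <;> simp

theorem blkOk_w2L (k : ℕ) (a b : ℕ → ℕ) (e : ℕ → Bool) :
    BlkOk k (fun j => bl (a j) (b j) (e j)) :=
  fun _ _ _ hc => ns01 k (mem_bl hc)

theorem count_w2 (k : ℕ) (a b : ℕ → ℕ) (e : ℕ → Bool) :
    (w2 k a b e).count 0 = deg k a ∧ (w2 k a b e).count 1 = deg k b := by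
  unfold w2
  rw [count_asm (ns01 k (Or.inl rfl)), count_asm (ns01 k (Or.inr rfl))]
  constructor
  · congr 1
    funext j
    exact (count_bl _ _ _).1
  · congr 1
    funext j
    exact (count_bl _ _ _).2

theorem all_rep {l : List ℕ} {x : ℕ} (h : ∀ c ∈ l, c = x) : l = List.replicate l.length x :=
  List.eq_replicate_of_mem h

/-- the main computation of (2) -/
theorem exch_eq {β : FIC} (hβ : β ≤ thC3) {k x : ℕ} (hx : NS k x) (c0 : ℕ → ℕ) (p : ℕ → Bool)
    {k1 : ℕ} {a1 b1 : ℕ → ℕ} (h1 : 2 ≤ deg k1 a1) (h2 : 2 ≤ deg k1 b1) (e e' : ℕ → Bool)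
    (g : ℕ → List ℕ) (m q : List ℕ)
    (h : RR β ((m ++ (w2 k1 a1 b1 e).flatMap g ++ q).filter p)
      (asm k (fun j => List.replicate (c0 j) x))) :
    (m ++ (w2 k1 a1 b1 e).flatMap g ++ q).filter p =
      (m ++ (w2 k1 a1 b1 e').flatMap g ++ q).filter p := by
  have key : ∀ d, 2 ≤ (w2 k1 a1 b1 e).count d → ∀ t ∈ (g d).filter p, t = x := by
    intro d hd t ht
    by_contra htx
    have h3 := count_ow_le hx c0 htx
    have h4 := rr_count hβ (RR.symm h) (t := t) (by omega)
    rw [← h4] at h3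
    rw [List.mem_filter] at ht
    have h5 : List.count t ((m ++ (w2 k1 a1 b1 e).flatMap g ++ q).filter p) =
        List.count t (m ++ (w2 k1 a1 b1 e).flatMap g ++ q) := List.count_filter ht.2
    rw [h5, List.count_append, List.count_append] at h3
    have h6 := count_flatMap_ge g d t (w2 k1 a1 b1 e)
    have h7 : 1 ≤ (g d).count t := List.one_le_count_iff.mpr ht.1
    nlinarith
  have h3 := all_rep (key 0 (by rw [(count_w2 k1 a1 b1 e).1]; exact h1))
  have h4 := all_rep (key 1 (by rw [(count_w2 k1 a1 b1 e).2]; exact h2))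
  rw [List.filter_append, List.filter_append, List.filter_append, List.filter_append,
    List.filter_flatMap, List.filter_flatMap]
  rw [w2_flatMap (fun c => (g c).filter p) x _ _ h3 h4 k1 a1 b1 e e']

/-- the property of the words -/
def KK (β : FIC) (k : ℕ) (a b : ℕ → ℕ) (w : Word) : Prop :=
  RR β (w.toList.filter (fun c => decide (c ≠ 1))) (mw k a) ∧
    RR β (w.toList.filter (fun c => decide (c ≠ 0))) (asm k (fun j => List.replicate (b j) 1))

theorem le_gam {β : FIC} {P : Word → Prop} (h : ∀ u v, β.r u v → P u → P v) : β ≤ gam P := by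
  intro u v huv φ m q
  have h1 : β.r (m * φ u * q) (m * φ v * q) := β.mul (β.mul (β.refl m) (β.sub φ huv)) (β.refl q)
  exact ⟨h _ _ h1, h _ _ (β.symm h1)⟩

theorem kk_mono {β : FIC} {k : ℕ} {a b : ℕ → ℕ} (u v : Word) (h : β.r u v)
    (hu : KK β k a b u) : KK β k a b v := by
  have h1 : RR β u.toList v.toList := h
  exact ⟨β.trans (RR.symm (h1.filter _)) hu.1, β.trans (RR.symm (h1.filter _)) hu.2⟩

theorem kk_ex1 {β : FIC} (hβ : β ≤ thC3) {k : ℕ} {a b : ℕ → ℕ} {k1 : ℕ} {a1 b1 : ℕ → ℕ}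
    (h1 : 2 ≤ deg k1 a1) (h2 : 2 ≤ deg k1 b1) (e e' : ℕ → Bool) (φ : Word →* Word) (m q : Word)
    (h : KK β k a b (m * φ (FreeMonoid.ofList (w2 k1 a1 b1 e)) * q)) :
    KK β k a b (m * φ (FreeMonoid.ofList (w2 k1 a1 b1 e')) * q) := by
  have hl : ∀ u : List ℕ, (m * φ (FreeMonoid.ofList u) * q).toList =
      m.toList ++ u.flatMap (fun i => (φ (FreeMonoid.of i)).toList) ++ q.toList := by
    intro u
    rw [FreeMonoid.toList_mul, FreeMonoid.toList_mul, toList_hom, FreeMonoid.toList_ofList]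
  obtain ⟨h3, h4⟩ := h
  rw [hl] at h3 h4
  refine ⟨?_, ?_⟩
  · rw [hl, ← exch_eq hβ (ns01 k (Or.inl rfl)) a _ h1 h2 e e' _ _ _ h3]
    exact h3
  · rw [hl, ← exch_eq hβ (ns01 k (Or.inr rfl)) b _ h1 h2 e e' _ _ _ h4]
    exact h4

theorem gam_ex {β : FIC} (hβ : β ≤ thC3) (k : ℕ) (a b : ℕ → ℕ) {k1 : ℕ} {a1 b1 : ℕ → ℕ}
    (h1 : 2 ≤ deg k1 a1) (h2 : 2 ≤ deg k1 b1) (e e' : ℕ → Bool) :
    RR (gam (KK β k a b)) (w2 k1 a1 b1 e) (w2 k1 a1 b1 e') := by
  intro φ m q
  exact ⟨kk_ex1 hβ h1 h2 e e' φ m q, kk_ex1 hβ h1 h2 e' e φ m q⟩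

theorem kk_w2 (β : FIC) (k : ℕ) (a b : ℕ → ℕ) (e : ℕ → Bool) :
    KK β k a b (FreeMonoid.ofList (w2 k a b e)) := by
  unfold KK
  rw [FreeMonoid.toList_ofList]
  have e0 : (w2 k a b e).filter (fun c => decide (c ≠ 1)) = mw k a := by
    unfold w2 mw
    rw [asm_filter _ (fun c h1 _ => by rw [decide_eq_true_iff]; omega)]
    exact asm_congr (fun j _ => filter_bl0 _ _ _)
  have e1 : (w2 k a b e).filter (fun c => decide (c ≠ 0)) =
      asm k (fun j => List.replicate (b j) 1) := by
    unfold w2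
    rw [asm_filter _ (fun c h1 _ => by rw [decide_eq_true_iff]; omega)]
    exact asm_congr (fun j _ => filter_bl1 _ _ _)
  rw [e0, e1]
  exact ⟨RR.refl _, RR.refl _⟩

/-! ### change of types -/

theorem blkOk_rep {k x : ℕ} (hx : NS k x) (a : ℕ → ℕ) :
    BlkOk k (fun j => List.replicate (a j) x) := by
  intro j _ c hc
  rw [List.eq_of_mem_replicate hc]
  exact hx

theorem tc0 {ω : FIC} {k : ℕ} {a a' : ℕ → ℕ} (h : L1 ω k a a') (b : ℕ → ℕ) (e : ℕ → Bool) :
    RR ω (w2 k a b e) (w2 k a' b e) := by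
  have h1 := rr_ins' ω (fun j => if e j then List.replicate (b j) 1 else [])
    (fun j => if e j then [] else List.replicate (b j) 1) (blkOk_rep (ns01 k (Or.inl rfl)) a)
    (blkOk_rep (ns01 k (Or.inl rfl)) a') h
  have e1 : ∀ a : ℕ → ℕ, asm k (fun j => (if e j then List.replicate (b j) 1 else []) ++
      List.replicate (a j) 0 ++ (if e j then [] else List.replicate (b j) 1)) = w2 k a b e := by
    intro a
    unfold w2
    apply asm_congr
    intro j _
    unfold bl
    cases e j <;> simp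
  rw [e1, e1] at h1
  exact h1

theorem tc1 {ω : FIC} {k : ℕ} {b b' : ℕ → ℕ}
    (h : RR ω (asm k (fun j => List.replicate (b j) 1)) (asm k (fun j => List.replicate (b' j) 1)))
    (a : ℕ → ℕ) (e : ℕ → Bool) : RR ω (w2 k a b e) (w2 k a b' e) := by
  have h1 := rr_ins' ω (fun j => if e j then [] else List.replicate (a j) 0)
    (fun j => if e j then List.replicate (a j) 0 else []) (blkOk_rep (ns01 k (Or.inr rfl)) b)
    (blkOk_rep (ns01 k (Or.inr rfl)) b') h
  have e1 : ∀ b : ℕ → ℕ, asm k (fun j => (if e j then [] else List.replicate (a j) 0) ++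
      List.replicate (b j) 1 ++ (if e j then List.replicate (a j) 0 else [])) = w2 k a b e := by
    intro b
    unfold w2
    apply asm_congr
    intro j _
    unfold bl
    cases e j <;> simp
  rw [e1, e1] at h1
  exact h1

theorem filter_ne_blk {l : List ℕ} (h : ∀ c ∈ l, c = 0 ∨ c = 1) :
    l.filter (fun c => decide (c ≠ 1)) = List.replicate (l.count 0) 0 ∧
      l.filter (fun c => decide (c ≠ 0)) = List.replicate (l.count 1) 1 := by
  have e : ∀ x y : ℕ, ((x = 0 ∧ y = 1) ∨ (x = 1 ∧ y = 0)) →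
      l.filter (fun c => decide (c ≠ y)) = List.replicate (l.count x) x := by
    intro x y hxy
    rw [← List.filter_beq]
    apply List.filter_congr
    intro i hi
    rcases hxy with ⟨rfl, rfl⟩ | ⟨rfl, rfl⟩ <;> rcases h i hi with rfl | rfl <;> decide
  exact ⟨e 0 1 (Or.inl ⟨rfl, rfl⟩), e 1 0 (Or.inr ⟨rfl, rfl⟩)⟩

theorem perm01 {D : List ℕ} (h : D.Perm [0, 1]) : D = [0, 1] ∨ D = [1, 0] := by
  have h1 : D ∈ ([0, 1] : List ℕ).permutations' := List.mem_permutations'.mpr h
  have h2 : ∀ l ∈ ([0, 1] : List ℕ).permutations', l = [0, 1] ∨ l = [1, 0] := by decide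
  exact h2 D h1

theorem deg_ge {β : FIC} (hβ : β ≤ thC3) {k x : ℕ} (hx : NS k x) {c d : ℕ → ℕ}
    (h : RR β (asm k (fun j => List.replicate (c j) x)) (asm k (fun j => List.replicate (d j) x)))
    (hd : 2 ≤ deg k d) : 2 ≤ deg k c := by
  by_contra hlt
  have h1 := count_ow hx c
  have h2 := rr_count hβ h (t := x) (by omega)
  rw [h1, count_ow hx d] at h2
  omega

theorem kk_str (hwbl : WblStmt) {β : FIC} (hβ : β ≤ thC3) (hnc : NC2 β) (hG : Gath2 β) {k : ℕ}
    {a b : ℕ → ℕ} (ha : 2 ≤ deg k a) (hb : 2 ≤ deg k b) (w : Word) (h : KK β k a b w) :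
    ∃ e : ℕ → Bool, RR β w.toList (w2 k a b e) := by
  obtain ⟨h0, h1⟩ := h
  obtain ⟨B0, hB0, hB0', _⟩ := hwbl β hβ hnc k (fun j => List.replicate (a j) 0) _
    (fun j _ c hc => Or.inl (List.eq_of_mem_replicate hc)) (RR.symm h0)
  obtain ⟨B1, hB1, hB1', _⟩ := hwbl β hβ hnc k (fun j => List.replicate (b j) 1) _
    (fun j _ c hc => Or.inr (List.eq_of_mem_replicate hc)) (RR.symm h1)
  have hf : w.toList.filter (fun c => decide (2 ≤ c ∧ c ≤ k + 1)) = seps k := by
    have h2 : (w.toList.filter (fun c => decide (c ≠ 1))).filter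
        (fun c => decide (2 ≤ c ∧ c ≤ k + 1)) = seps k := by
      rw [hB0]
      exact filter_sep (fun j _ c hc => ns01 k (hB0' j c hc))
    rw [List.filter_filter] at h2
    rw [← h2]
    apply List.filter_congr
    intro c _
    by_cases hc : 2 ≤ c ∧ c ≤ k + 1
    · have : c ≠ 1 := by omega
      simp [hc, this]
    · simp [hc]
  obtain ⟨B, hB, hw⟩ := dec hf
  have hB01 : ∀ j ≤ k, ∀ c ∈ B j, c = 0 ∨ c = 1 := by
    intro j hj c hc
    by_cases hc1 : c = 1
    · exact Or.inr hc1
    · have h2 : c ∈ w.toList.filter (fun c => decide (c ≠ 1)) := by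
        rw [List.mem_filter, decide_eq_true_iff]
        refine ⟨?_, hc1⟩
        rw [hw, mem_asm]
        exact Or.inr ⟨j, hj, hc⟩
      rw [hB0, mem_asm] at h2
      rcases h2 with h2 | ⟨j', _, h2⟩
      · exact absurd h2 (hB j c hc)
      · exact hB0' j' c h2
  have e0 : w.toList.filter (fun c => decide (c ≠ 1)) =
      asm k (fun j => List.replicate ((B j).count 0) 0) := by
    rw [hw, asm_filter _ (fun c h1 _ => by rw [decide_eq_true_iff]; omega)]
    exact asm_congr (fun j hj => (filter_ne_blk (hB01 j hj)).1)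
  have e1 : w.toList.filter (fun c => decide (c ≠ 0)) =
      asm k (fun j => List.replicate ((B j).count 1) 1) := by
    rw [hw, asm_filter _ (fun c h1 _ => by rw [decide_eq_true_iff]; omega)]
    exact asm_congr (fun j hj => (filter_ne_blk (hB01 j hj)).2)
  rw [e0] at h0
  rw [e1] at h1
  have hd0 : 2 ≤ deg k (fun j => (B j).count 0) := deg_ge hβ (ns01 k (Or.inl rfl)) h0 ha
  have hd1 : 2 ≤ deg k (fun j => (B j).count 1) := deg_ge hβ (ns01 k (Or.inr rfl)) h1 hb
  obtain ⟨D, hD, hr⟩ := hG k B [0, 1] (by decide) (fun j _ c hc => hB j c hc) (by decide)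
    (fun c hc => ns01 k (by simpa using hc)) (fun j hj c hc => by simpa using hB01 j hj c hc)
    (fun c hc => by
      have : c = 0 ∨ c = 1 := by simpa using hc
      rcases this with rfl | rfl
      · exact hd0
      · exact hd1)
  refine ⟨fun j => decide (D j = [1, 0]), ?_⟩
  have e2 : gw k (fun j c => (B j).count c) D =
      w2 k (fun j => (B j).count 0) (fun j => (B j).count 1) (fun j => decide (D j = [1, 0])) := by
    unfold gw w2
    apply asm_congr
    intro j _
    show (D j).flatMap (fun c => List.replicate ((B j).count c) c) =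
      bl ((B j).count 0) ((B j).count 1) (decide (D j = [1, 0]))
    rcases perm01 (hD j) with h3 | h3
    · have h4 : decide (D j = [1, 0]) = false := by rw [h3]; decide
      rw [h4, h3]
      simp [bl]
    · have h4 : decide (D j = [1, 0]) = true := by rw [h3]; decide
      rw [h4, h3]
      simp [bl]
  rw [e2, ← hw] at hr
  exact β.trans hr (β.trans (tc0 h0 _ _) (tc1 h1 _ _))

theorem flp_self (e : ℕ → Bool) (i : ℕ) : flp e i i = !(e i) := by
  unfold flp
  rw [if_pos rfl]

theorem flp_ne (e : ℕ → Bool) {i r : ℕ} (h : r ≠ i) : flp e i r = e r := by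
  unfold flp
  rw [if_neg h]

/-- Lemma N with the weaker hypothesis `Gath2` -/
theorem ln2 (hwbl : WblStmt) : ∀ β : FIC, β ≤ thC3 → NC2 β → Gath2 β → Rig β → ModF β →
    ∀ G1 G2 : FIC, β ≤ G1 → β ≤ G2 →
    ∀ (k : ℕ) (a a' b : ℕ → ℕ) (i : ℕ), 2 ≤ deg k a → 2 ≤ deg k a' → 2 ≤ deg k b → i ≤ k →
      Bt G1 k a b i → L1 G2 k a a' → Bt G1 k a' b i ∨ Bt G2 k a' b i := by
  intro β hβ hnc hG hR hM G1 G2 hG1 hG2 k a a' b i ha ha' hb hi hBt hL
  obtain ⟨r, hr⟩ := hR k a' b ha' hb
  by_cases hri : r = i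
  swap
  · left
    intro e
    exact hG1 _ _ (hr e (flp e i) (flp_ne e hri).symm)
  subst hri
  -- one exchange gives all
  have hall : ∀ G : FIC, β ≤ G → ∀ e, Ex G k a' b e r → Bt G k a' b r := by
    intro G hG' e he e1
    by_cases h1 : e1 r = e r
    · have h2 : RR G (w2 k a' b e1) (w2 k a' b e) := hG' _ _ (hr e1 e h1)
      have h3 : RR G (w2 k a' b (flp e r)) (w2 k a' b (flp e1 r)) :=
        hG' _ _ (hr _ _ (by rw [flp_self, flp_self, h1]))
      exact G.trans h2 (G.trans he h3)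
    · have h1' : e1 r = flp e r r := by
        rw [flp_self]
        revert h1
        cases e1 r <;> cases e r <;> simp
      have h2 : RR G (w2 k a' b e1) (w2 k a' b (flp e r)) := hG' _ _ (hr _ _ h1')
      have h3 : RR G (w2 k a' b e) (w2 k a' b (flp e1 r)) :=
        hG' _ _ (hr _ _ (by rw [flp_self, h1', flp_self, Bool.not_not]))
      exact G.trans h2 (G.trans (G.symm he) h3)
  by_contra hcon
  rw [not_or] at hcon
  obtain ⟨hn1, hn2⟩ := hcon
  obtain ⟨e, he⟩ : ∃ e : ℕ → Bool, e = fun _ => false := ⟨_, rfl⟩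
  obtain ⟨Γ, hΓ⟩ : ∃ Γ, Γ = gam (KK β k a' b) := ⟨_, rfl⟩
  have hβΓ : β ≤ Γ := by
    rw [hΓ]
    exact le_gam (fun u v h hu => kk_mono u v h hu)
  have hex : ∀ {k1 : ℕ} {a1 b1 : ℕ → ℕ}, 2 ≤ deg k1 a1 → 2 ≤ deg k1 b1 → ∀ e e' : ℕ → Bool,
      RR Γ (w2 k1 a1 b1 e) (w2 k1 a1 b1 e') := by
    intro k1 a1 b1 h1 h2 e e'
    rw [hΓ]
    exact gam_ex hβ k a' b h1 h2 e e'
  have hchain := hM (FIC.inf G1 Γ) G2 Γ (FIC.le_inf hG1 hβΓ) hG2 hβΓ (FIC.inf_le_right _ _)
    (FreeMonoid.ofList (w2 k a' b e)) (FreeMonoid.ofList (w2 k a' b (flp e r)))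
    (by
      have s1 : (FIC.sup (FIC.inf G1 Γ) G2).r (FreeMonoid.ofList (w2 k a' b e))
          (FreeMonoid.ofList (w2 k a b e)) :=
        FIC.le_sup_right _ _ _ _ (tc0 (RR.symm hL) b e)
      have s2 : (FIC.sup (FIC.inf G1 Γ) G2).r (FreeMonoid.ofList (w2 k a b e))
          (FreeMonoid.ofList (w2 k a b (flp e r))) :=
        FIC.le_sup_left _ _ _ _ ⟨hBt e, hex ha hb e (flp e r)⟩
      have s3 : (FIC.sup (FIC.inf G1 Γ) G2).r (FreeMonoid.ofList (w2 k a b (flp e r)))
          (FreeMonoid.ofList (w2 k a' b (flp e r))) :=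
        FIC.le_sup_right _ _ _ _ (tc0 hL b (flp e r))
      exact (FIC.sup (FIC.inf G1 Γ) G2).trans s1 ((FIC.sup (FIC.inf G1 Γ) G2).trans s2 s3))
    (hex ha' hb e (flp e r))
  -- walk along the chain
  have hwalk : ∀ w : Word, (FIC.sup (FIC.inf G1 Γ) (FIC.inf G2 Γ)).r
      (FreeMonoid.ofList (w2 k a' b e)) w → KK β k a' b w ∧ RR β (w2 k a' b e) w.toList := by
    intro w hw
    induction hw with
    | refl => exact ⟨kk_w2 β k a' b e, RR.refl _⟩
    | tail _ h4 ih =>
      rename_i y z _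
      obtain ⟨ihK, ihr⟩ := ih
      have hΓyz : Γ.r y z := by
        rcases h4 with h4 | h4
        · exact h4.2
        · exact h4.2
      have hKz : KK β k a' b z := by
        rw [hΓ] at hΓyz
        exact (gam_self hΓyz).1 ihK
      refine ⟨hKz, ?_⟩
      obtain ⟨e', he'⟩ := kk_str hwbl hβ hnc hG ha' hb z hKz
      by_cases h5 : e r = e' r
      · exact β.trans (hr e e' h5) (RR.symm he')
      · exfalso
        have h5' : e' r = flp e r r := by
          rw [flp_self]
          revert h5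
          cases e' r <;> cases e r <;> simp
        have h6 : RR β z.toList (w2 k a' b (flp e r)) := β.trans he' (hr _ _ h5')
        rcases h4 with h4 | h4
        · have h7 : RR G1 y.toList z.toList := h4.1
          have h8 : Ex G1 k a' b e r :=
            G1.trans (hG1 _ _ ihr) (G1.trans h7 (hG1 _ _ h6))
          exact hn1 (hall G1 hG1 e h8)
        · have h7 : RR G2 y.toList z.toList := h4.1
          have h8 : Ex G2 k a' b e r :=
            G2.trans (hG2 _ _ ihr) (G2.trans h7 (hG2 _ _ h6))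
          exact hn2 (hall G2 hG2 e h8)
  have h9 := (hwalk _ hchain).2
  exact hn1 (hall G1 hG1 e (hG1 _ _ h9))

theorem lnn (hwbl : WblStmt) : LnnStmt :=
  fun β hβ hnc hG => ln2 hwbl β hβ hnc (Gath.to2 hG)

end Pool.Agent.Helper92_MVO
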