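import Pool.Agent.MVO.StmtsE

namespace Pool.Agent.Helper92_MVO.LBXA

open Pool.Agent.Helper14_MV Pool.Agent.Helper2_MV Pool.Agent.MVO

/-! ### gathering of a letter -/

theorem gF_not {c : ℕ} {L : List ℕ} (h : c ∉ L) : gF c L = L := by
  unfold gF
  have h1 : L.takeWhile (fun d => decide (d ≠ c)) = L := by
    rw [List.takeWhile_eq_self_iff]
    intro d hd
    rw [decide_eq_true_iff]
    intro h2
    exact h (h2 ▸ hd)
  have h2 : L.dropWhile (fun d => decide (d ≠ c)) = [] := by
    rw [List.dropWhile_eq_nil_iff]
    intro d hd
    rw [decide_eq_true_iff]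
    intro h2
    exact h (h2 ▸ hd)
  rw [h1, h2, List.count_eq_zero_of_not_mem h]
  simp

theorem gL_not {c : ℕ} {L : List ℕ} (h : c ∉ L) : gL c L = L := by
  unfold gL
  rw [gF_not (by rwa [List.mem_reverse]), List.reverse_reverse]

theorem gF_first {c : ℕ} {A : List ℕ} (h : c ∉ A) (R : List ℕ) :
    gF c (A ++ c :: R) = A ++ List.replicate (R.count c + 1) c ++
      R.filter (fun d => decide (d ≠ c)) := by
  unfold gF
  have hA : ∀ d ∈ A, (fun d => decide (d ≠ c)) d = true := by
    intro d hd
    rw [decide_eq_true_iff]
    intro h2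
    exact h (h2 ▸ hd)
  have ht : (c :: R).takeWhile (fun d => decide (d ≠ c)) = [] := by simp
  have hd : (c :: R).dropWhile (fun d => decide (d ≠ c)) = c :: R := by simp
  have hf : (c :: R).filter (fun d => decide (d ≠ c)) = R.filter (fun d => decide (d ≠ c)) := by
    simp
  rw [List.takeWhile_append_of_pos hA, List.dropWhile_append_of_pos hA, ht, hd, hf,
    List.append_nil, List.count_append, List.count_eq_zero_of_not_mem h, List.count_cons_self,
    Nat.zero_add]

theorem gL_last {c : ℕ} {A : List ℕ} (h : c ∉ A) (R : List ℕ) :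
    gL c (R ++ c :: A) = R.filter (fun d => decide (d ≠ c)) ++
      List.replicate (R.count c + 1) c ++ A := by
  unfold gL
  have e : (R ++ c :: A).reverse = A.reverse ++ c :: R.reverse := by simp
  rw [e, gF_first (by rwa [List.mem_reverse])]
  simp [List.filter_reverse]

/-! ### blocks -/

theorem upd_ok {k i : ℕ} {B : ℕ → List ℕ} {L : List ℕ} (hi : i ≤ k) (hp : (B i).Perm L)
    (hok : BlkOk k B) : BlkOk k (Function.update B i L) := by
  intro j hj c hc
  by_cases hji : j = i
  · subst hji
    rw [Function.update_self] at hc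
    exact hok j hj c (hp.mem_iff.2 hc)
  · rw [Function.update_of_ne hji] at hc
    exact hok j hj c hc

theorem upd_deg {k i : ℕ} {B : ℕ → List ℕ} {L : List ℕ} (hp : (B i).Perm L) (c : ℕ) :
    deg k (fun j => (Function.update B i L j).count c) = deg k (fun j => (B j).count c) := by
  unfold deg
  apply Finset.sum_congr rfl
  intro j _
  show (Function.update B i L j).count c = (B j).count c
  by_cases hji : j = i
  · subst hji
    rw [Function.update_self]
    exact (hp.count_eq c).symm
  · rw [Function.update_of_ne hji]

theorem upd_mul {k i : ℕ} {B : ℕ → List ℕ} {L : List ℕ} (hi : i ≤ k) (hp : (B i).Perm L)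
    (hmul : AMul k B) : AMul k (Function.update B i L) := by
  intro j hj c hc
  rw [upd_deg hp]
  by_cases hji : j = i
  · subst hji
    rw [Function.update_self] at hc
    exact hmul j hj c (hp.mem_iff.2 hc)
  · rw [Function.update_of_ne hji] at hc
    exact hmul j hj c hc

theorem deg_loc {k i c : ℕ} {B : ℕ → List ℕ} (hi : i ≤ k) (hloc : ∀ j ≤ k, j ≠ i → c ∉ B j) :
    deg k (fun j => (B j).count c) = (B i).count c := by
  unfold deg
  rw [Finset.sum_eq_single i]
  · intro j hj hji
    exact List.count_eq_zero_of_not_mem (hloc j (by rw [Finset.mem_range] at hj; omega) hji)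
  · intro h
    rw [Finset.mem_range] at h
    omega

/-- the two letter word -/
def W (m i n : ℕ) (L : List ℕ) : ℕ → List ℕ :=
  fun j => if j = m then [n] else if j = i then L else []

/-- gathering of the local letter in the context -/
theorem gat (hgla : GlaStmt) {ω : FIC} (hC : MVD.Cc ω) (hE : MVD.E23d ω) {k i l : ℕ}
    {B : ℕ → List ℕ} (R A : List ℕ) (hi : i ≤ k) (hok : BlkOk k B) (hmul : AMul k B)
    (hp : (B i).Perm (R ++ l :: A)) (hl : l ∉ A) (hloc : ∀ j ≤ k, j ≠ i → l ∉ B j)
    (h3 : 3 ≤ (B i).count l) :
    RR ω (asm k (Function.update B i (R ++ l :: A)))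
      (asm k (Function.update B i (R.filter (fun d => decide (d ≠ l)) ++
        List.replicate (R.count l + 1) l ++ A))) := by
  have hmem : l ∈ B i := hp.mem_iff.2 (by simp)
  have hloc' : ∀ j ≤ k, j ≠ i → l ∉ Function.update B i (R ++ l :: A) j := by
    intro j hj hji
    rw [Function.update_of_ne hji]
    exact hloc j hj hji
  have h1 := hgla ω hC k (Function.update B i (R ++ l :: A)) l i (upd_ok hi hp hok)
    (upd_mul hi hp hmul) (hok i hi l hmem) hi (by rw [Function.update_self]; simp)
    (fun j hj hij => hloc' j hj (by omega))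
    (Or.inr ⟨hE, by rw [upd_deg hp, deg_loc hi hloc]; exact h3⟩)
  have e : asm k (gA l i (Function.update B i (R ++ l :: A))) =
      asm k (Function.update B i (R.filter (fun d => decide (d ≠ l)) ++
        List.replicate (R.count l + 1) l ++ A)) := by
    apply asm_congr
    intro j hj
    unfold gA
    by_cases hji : j = i
    · subst hji
      rw [if_neg (lt_irrefl _), Function.update_self, Function.update_self, gL_last hl]
    · rw [Function.update_of_ne hji, Function.update_of_ne hji]
      split_ifs
      · exact gF_not (hloc j hj hji)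
      · exact gL_not (hloc j hj hji)
  rw [e] at h1
  exact h1

theorem core (hgla : GlaStmt) {ω : FIC} (hC : MVD.Cc ω) (hE : MVD.E23d ω) {k i m l n : ℕ}
    {B : ℕ → List ℕ} (P Q : List ℕ) (hi : i ≤ k) (hm : m < i) (hok : BlkOk k B)
    (hmul : AMul k B) (hp : (B i).Perm (P ++ l :: n :: Q)) (hln : l ≠ n) (hl : l ∉ Q)
    (hloc : ∀ j ≤ k, j ≠ i → l ∉ B j) (h3 : 3 ≤ (B i).count l) (hn : n ∈ B m)
    (hW : RR ω (asm k (W m i n (List.replicate (P.count l + 1) l ++ [n])))
      (asm k (W m i n (n :: List.replicate (P.count l + 1) l)))) :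
    RR ω (asm k (Function.update B i (P ++ l :: n :: Q)))
      (asm k (Function.update B i (P ++ n :: l :: Q))) := by
  have hp2 : (B i).Perm ((P ++ [n]) ++ l :: Q) := by
    refine hp.trans ?_
    rw [List.append_assoc]
    exact List.Perm.append_left P (List.Perm.swap n l Q)
  have g1 := gat hgla hC hE P (n :: Q) hi hok hmul hp (by simp [hln, hl]) hloc h3
  have g2 := gat hgla hC hE (P ++ [n]) Q hi hok hmul hp2 hl hloc h3
  have e1 : (P ++ [n]) ++ l :: Q = P ++ n :: l :: Q := by simp
  rw [e1] at g2
  have e2 : (P ++ [n]).filter (fun d => decide (d ≠ l)) ++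
      List.replicate ((P ++ [n]).count l + 1) l ++ Q =
      P.filter (fun d => decide (d ≠ l)) ++ (n :: List.replicate (P.count l + 1) l) ++ Q := by
    have h1 : (P ++ [n]).count l = P.count l := by
      rw [List.count_append, List.count_cons_of_ne (Ne.symm hln)]
      simp
    rw [h1, List.filter_append]
    have h2 : [n].filter (fun d => decide (d ≠ l)) = [n] := by
      simp [Ne.symm hln]
    rw [h2]
    simp
  rw [e2] at g2
  obtain ⟨R, R', hRR⟩ := List.append_of_mem hn
  have hns : NS k l := hok i hi l (hp.mem_iff.2 (by simp))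
  have hnn : NS k n := hok i hi n (hp.mem_iff.2 (by simp))
  have hWok : ∀ L : List ℕ, (∀ c ∈ L, c = l ∨ c = n) → BlkOk k (W m i n L) := by
    intro L hL j _ c hc
    unfold W at hc
    split_ifs at hc
    · rw [List.mem_singleton] at hc
      rw [hc]
      exact hnn
    · rcases hL c hc with h | h
      · rw [h]
        exact hns
      · rw [h]
        exact hnn
    · simp at hc
  have hins := rr_ins' ω
    (fun j => if j = m then R else if j = i then P.filter (fun d => decide (d ≠ l)) else B j)
    (fun j => if j = m then R' else if j = i then Q else []) (hWok _ (by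
      intro c hc
      rw [List.mem_append, List.mem_replicate, List.mem_singleton] at hc
      rcases hc with h | h
      · exact Or.inl h.2
      · exact Or.inr h)) (hWok _ (by
      intro c hc
      rw [List.mem_cons, List.mem_replicate] at hc
      rcases hc with h | h
      · exact Or.inr h
      · exact Or.inl h.2)) hW
  have e3 : ∀ L : List ℕ, asm k (fun j =>
      (if j = m then R else if j = i then P.filter (fun d => decide (d ≠ l)) else B j) ++
        W m i n L j ++ (if j = m then R' else if j = i then Q else [])) =
      asm k (Function.update B i (P.filter (fun d => decide (d ≠ l)) ++ L ++ Q)) := by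
    intro L
    apply asm_congr
    intro j _
    unfold W
    by_cases hjm : j = m
    · subst hjm
      rw [Function.update_of_ne (by omega)]
      simp [hRR]
    · by_cases hji : j = i
      · subst hji
        rw [Function.update_self]
        simp [hjm]
      · rw [Function.update_of_ne hji]
        simp [hjm, hji]
  rw [e3, e3] at hins
  have e4 : P.filter (fun d => decide (d ≠ l)) ++
      (List.replicate (P.count l + 1) l ++ [n]) ++ Q =
      P.filter (fun d => decide (d ≠ l)) ++ List.replicate (P.count l + 1) l ++ n :: Q := by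
    simp
  rw [e4] at hins
  exact ω.trans g1 (ω.trans hins (ω.symm g2))

/-! ### two letters -/

theorem asm_W {k i m n : ℕ} (hi : i ≤ k) (hm : m < i) : ∃ p q : List ℕ, n ∈ p ∧
    ∀ L, asm k (W m i n L) = p ++ L ++ q := by
  refine ⟨pre (W m i n []) i, suf (W m i n []) i (k - i), ?_, ?_⟩
  · rw [mem_pre]
    refine Or.inr ⟨m, hm, ?_⟩
    unfold W
    rw [if_pos rfl]
    simp
  · intro L
    rw [asm_split hi]
    have h1 : W m i n L i = L := by
      unfold W
      rw [if_neg (by omega), if_pos rfl]
    rw [h1, pre_congr (B' := W m i n []) (fun j hj => by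
      unfold W
      rw [if_neg (by omega : ¬ j = i), if_neg (by omega : ¬ j = i)]),
      suf_congr (B' := W m i n []) (fun j hj _ => by
      unfold W
      rw [if_neg (by omega : ¬ j = i), if_neg (by omega : ¬ j = i)])]

theorem mvleft (hsgc : SgcStmt) {ω : FIC} (hC : MVD.Cc ω) {l n : ℕ} {p q : List ℕ}
    (hn : n ∈ p) : ∀ r t : ℕ,
    RR ω (p ++ (List.replicate r l ++ n :: List.replicate (t + 1) l) ++ q)
      (p ++ (n :: List.replicate (r + t + 1) l) ++ q) := by
  intro r
  induction r with
  | zero =>
    intro t
    rw [Nat.zero_add]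
    exact RR.refl _
  | succ r ih =>
    intro t
    have h1 := (hsgc ω hC (p ++ List.replicate r l) (List.replicate (t + 1) l ++ q) n l).1
      (List.mem_append_left _ hn) (List.mem_append_left _ (by simp))
    have e1 : p ++ (List.replicate (r + 1) l ++ n :: List.replicate (t + 1) l) ++ q =
        p ++ List.replicate r l ++ l :: n :: (List.replicate (t + 1) l ++ q) := by
      rw [List.replicate_succ' (n := r)]
      simp
    have e2 : p ++ List.replicate r l ++ n :: l :: (List.replicate (t + 1) l ++ q) =
        p ++ (List.replicate r l ++ n :: List.replicate (t + 1 + 1) l) ++ q := by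
      rw [List.replicate_succ (n := t + 1)]
      simp
    rw [e1]
    rw [e2] at h1
    have h2 := ih (t + 1)
    have e3 : r + (t + 1) + 1 = r + 1 + t + 1 := by omega
    rw [e3] at h2
    exact ω.trans (RR.symm h1) h2

theorem rep_of {L : List ℕ} {l n : ℕ} (hL : ∀ c ∈ L, c = l ∨ c = n) (hn : n ∉ L) :
    L = List.replicate (L.count l) l := by
  have h1 : ∀ c ∈ L, c = l := by
    intro c hc
    rcases hL c hc with h | h
    · exact h
    · exact absurd (h ▸ hc) hn
  have h2 : L = List.replicate L.length l := List.eq_replicate_of_mem h1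
  have h3 : L.count l = L.length := by
    rw [List.count_eq_length]
    intro c hc
    exact (h1 c hc).symm
  rw [h3]
  exact h2

theorem shape {L : List ℕ} {l n : ℕ} (hln : l ≠ n) (hL : ∀ c ∈ L, c = l ∨ c = n)
    (hn : L.count n = 1) : ∃ r t, L = List.replicate r l ++ n :: List.replicate t l ∧
      r + t = L.count l := by
  have hmem : n ∈ L := by
    rw [← List.count_pos_iff]
    omega
  obtain ⟨A, A', rfl⟩ := List.append_of_mem hmem
  rw [List.count_append, List.count_cons_self] at hn
  have h1 : n ∉ A := List.count_eq_zero.mp (by omega)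
  have h2 : n ∉ A' := List.count_eq_zero.mp (by omega)
  have e1 := rep_of (fun c hc => hL c (by simp [hc])) h1
  have e2 := rep_of (fun c hc => hL c (by simp [hc])) h2
  refine ⟨A.count l, A'.count l, ?_, ?_⟩
  · rw [← e1, ← e2]
  · rw [List.count_append, List.count_cons_of_ne (Ne.symm hln)]

/-- the restriction of a block with adjacent last occurrences -/
theorem restr {l n : ℕ} {P Q R : List ℕ} (hP : n ∉ P) (hl : l ∉ Q) (hn : n ∉ Q)
    (p : ℕ → Bool) (hpl : p l = true) (hpn : p n = true)
    (hp : ∀ c, p c = true → c = l ∨ c = n) (hR : ∀ c ∈ R, c = l ∨ c = n) :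
    (P ++ R ++ Q).filter p = List.replicate (P.count l) l ++ R := by
  rw [List.filter_append, List.filter_append]
  have h1 : P.filter p = List.replicate (P.count l) l := by
    have h2 := rep_of (L := P.filter p) (l := l) (n := n) (fun c hc => by
      rw [List.mem_filter] at hc
      exact hp c hc.2) (fun hc => hP (List.mem_filter.mp hc).1)
    rw [List.count_filter hpl] at h2
    exact h2
  have h2 : R.filter p = R := by
    rw [List.filter_eq_self]
    intro c hc
    rcases hR c hc with h | h
    · rw [h]; exact hpl
    · rw [h]; exact hpn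
  have h3 : Q.filter p = [] := by
    rw [List.filter_eq_nil_iff]
    intro c hc h4
    rcases hp c h4 with h | h
    · exact hl (h ▸ hc)
    · exact hn (h ▸ hc)
  rw [h1, h2, h3, List.append_nil]

theorem fam {k i m l n : ℕ} {B D : ℕ → List ℕ} (hi : i ≤ k) (hm : m < i)
    (hln : l ≠ n) (hlb : LBig k B i l n) (hn : n ∈ B m)
    (hD : ∀ j ≤ k, ∀ z ∈ D j, z = l ∨ z = n)
    (hcl : ∀ j ≤ k, (D j).count l = (B j).count l) (hcn : ∀ j ≤ k, (D j).count n = (B j).count n) :
    asm k D = asm k (W m i n (D i)) := by
  obtain ⟨hloc, _, hn1, hdeg, _⟩ := hlb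
  have hcnt : ∀ j ≤ k, j ≠ i → j ≠ m → (B j).count n = 0 := by
    intro j hj hji hjm
    by_contra hne
    have h1 : 1 ≤ (B m).count n := List.one_le_count_iff.mpr hn
    have h2 : (B j).count n + ((B i).count n + (B m).count n) ≤ deg k (fun j => (B j).count n) := by
      unfold deg
      have hsub : ({j, i, m} : Finset ℕ) ⊆ Finset.range (k + 1) := by
        intro z hz
        rw [Finset.mem_insert, Finset.mem_insert, Finset.mem_singleton] at hz
        rw [Finset.mem_range]
        omega
      have h3 := Finset.sum_le_sum_of_subset (f := fun j => (B j).count n) hsub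
      rw [Finset.sum_insert (by
        rw [Finset.mem_insert, Finset.mem_singleton]
        omega), Finset.sum_insert (by
        rw [Finset.mem_singleton]
        omega), Finset.sum_singleton] at h3
      exact h3
    omega
  have hcm : (B m).count n = 1 := by
    have h1 : 1 ≤ (B m).count n := List.one_le_count_iff.mpr hn
    have h2 : (B i).count n + (B m).count n ≤ deg k (fun j => (B j).count n) := by
      unfold deg
      have hsub : ({i, m} : Finset ℕ) ⊆ Finset.range (k + 1) := by
        intro z hz
        rw [Finset.mem_insert, Finset.mem_singleton] at hz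
        rw [Finset.mem_range]
        omega
      have h3 := Finset.sum_le_sum_of_subset (f := fun j => (B j).count n) hsub
      rw [Finset.sum_insert (by
        rw [Finset.mem_singleton]
        omega), Finset.sum_singleton] at h3
      exact h3
    omega
  apply asm_congr
  intro j hj
  unfold W
  by_cases hjm : j = m
  · subst hjm
    rw [if_pos rfl]
    obtain ⟨r, t, e, hrt⟩ := shape hln (hD j hj) (by rw [hcn j hj, hcm])
    rw [hcl j hj, List.count_eq_zero_of_not_mem (hloc j hj (by omega))] at hrt
    have hr : r = 0 := by omega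
    have ht : t = 0 := by omega
    rw [e, hr, ht]
    rfl
  · rw [if_neg hjm]
    by_cases hji : j = i
    · rw [if_pos hji, hji]
    · rw [if_neg hji, List.eq_nil_iff_forall_not_mem]
      intro z hz
      rcases hD j hj z hz with h | h
      · subst h
        have h1 := hcl j hj
        rw [List.count_eq_zero_of_not_mem (hloc j hj hji)] at h1
        exact (List.count_eq_zero.mp h1) hz
      · subst h
        have h1 := hcn j hj
        rw [hcnt j hj hji hjm] at h1
        exact (List.count_eq_zero.mp h1) hz

end Pool.Agent.Helper92_MVO.LBXA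

namespace Pool.Agent.Helper92_MVO

open Pool.Agent.Helper14_MV Pool.Agent.Helper2_MV Pool.Agent.MVO LBXA

theorem lbx (hsgc : SgcStmt) (hgla : GlaStmt) : LbxStmt := by
  intro ω hC hE k B C i P Q x y hi hok hmul hxy hBi hxQ hyQ hlast hbig hT hlastC
  have hself : ∀ L, B i = L → Function.update B i L = B := by
    intro L hL
    rw [← hL]
    exact Function.update_eq_self i B
  rcases hbig with hbig | hbig
  · -- the local letter is x
    obtain ⟨hloc, h3, hn1, hdeg, m, hm, hn⟩ := hbig
    have hyP : y ∉ P := by
      rw [hBi, List.count_append, List.count_cons_of_ne hxy, List.count_cons_self] at hn1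
      exact List.count_eq_zero.mp (by omega)
    have hxP : (B i).count x = P.count x + 1 := by
      rw [hBi, List.count_append, List.count_cons_self, List.count_cons_of_ne (Ne.symm hxy),
        List.count_eq_zero_of_not_mem hxQ]
    have hcore := core hgla hC hE (m := m) P Q hi hm hok hmul (by rw [hBi]) hxy hxQ hloc h3 hn
    rw [hself _ hBi] at hcore
    apply hcore
    obtain ⟨p, q, hnp, hpq⟩ := asm_W (n := y) hi hm
    have f1 := fam (D := r2 x y B) hi hm hxy ⟨hloc, h3, hn1, hdeg, m, hm, hn⟩ hn
      (fun j _ z hz => by
        unfold r2 at hz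
        rw [List.mem_filter, decide_eq_true_iff] at hz
        exact hz.2)
      (fun j _ => List.count_filter (by simp)) (fun j _ => List.count_filter (by simp))
    have f2 := fam (D := C) hi hm hxy ⟨hloc, h3, hn1, hdeg, m, hm, hn⟩ hn hT.two
      (fun j hj => (hT.cnt j hj).1) (fun j hj => (hT.cnt j hj).2)
    have f3 : r2 x y B i = List.replicate (P.count x + 1) x ++ [y] := by
      have h4 : r2 x y B i = (P ++ [x, y] ++ Q).filter (fun c => decide (c = x ∨ c = y)) := by
        unfold r2
        rw [hBi]
        simp
      rw [h4, restr hyP hxQ hyQ (fun c => decide (c = x ∨ c = y)) (by simp) (by simp)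
        (fun c hc => by rwa [decide_eq_true_iff] at hc) (by simp), List.replicate_succ']
      simp
    obtain ⟨r, t, e, hrt⟩ := shape hxy (hT.two i hi) (by rw [(hT.cnt i hi).2, hn1])
    rw [(hT.cnt i hi).1, hxP] at hrt
    have ht : t ≠ 0 := by
      intro h0
      rw [e, h0] at hlastC
      simp at hlastC
      exact hxy hlastC.symm
    obtain ⟨t', rfl⟩ : ∃ t', t = t' + 1 := ⟨t - 1, by omega⟩
    have h5 := hT.rel
    rw [f1, f2, f3, hpq, hpq, e] at h5
    have h6 := mvleft hsgc hC (l := x) (q := q) hnp r t'
    have e7 : r + t' + 1 = P.count x + 1 := by omega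
    rw [e7] at h6
    rw [hpq, hpq]
    exact ω.trans h5 h6
  · -- the local letter is y
    obtain ⟨hloc, h3, hn1, hdeg, m, hm, hn⟩ := hbig
    have hxP : x ∉ P := by
      rw [hBi, List.count_append, List.count_cons_self] at hn1
      exact List.count_eq_zero.mp (by omega)
    have hyP : (B i).count y = P.count y + 1 := by
      rw [hBi, List.count_append, List.count_cons_of_ne hxy, List.count_cons_self,
        List.count_eq_zero_of_not_mem hyQ]
    have hcore := core hgla hC hE (m := m) P Q hi hm hok hmul
      (by rw [hBi]; exact List.Perm.append_left P (List.Perm.swap y x Q)) (Ne.symm hxy) hyQ hloc h3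
      hn
    rw [hself _ hBi] at hcore
    refine RR.symm (hcore ?_)
    obtain ⟨p, q, hnp, hpq⟩ := asm_W (n := x) hi hm
    have f1 := fam (D := r2 x y B) hi hm (Ne.symm hxy) ⟨hloc, h3, hn1, hdeg, m, hm, hn⟩ hn
      (fun j _ z hz => by
        unfold r2 at hz
        rw [List.mem_filter, decide_eq_true_iff] at hz
        exact hz.2.symm)
      (fun j _ => List.count_filter (by simp)) (fun j _ => List.count_filter (by simp))
    have f2 := fam (D := C) hi hm (Ne.symm hxy) ⟨hloc, h3, hn1, hdeg, m, hm, hn⟩ hn
      (fun j hj z hz => (hT.two j hj z hz).symm)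
      (fun j hj => (hT.cnt j hj).2) (fun j hj => (hT.cnt j hj).1)
    have f3 : r2 x y B i = List.replicate (P.count y) y ++ [x, y] := by
      have h4 : r2 x y B i = (P ++ [x, y] ++ Q).filter (fun c => decide (c = x ∨ c = y)) := by
        unfold r2
        rw [hBi]
        simp
      rw [h4, restr hxP hyQ hxQ (fun c => decide (c = x ∨ c = y)) (by simp) (by simp)
        (fun c hc => by
          rw [decide_eq_true_iff] at hc
          exact hc.symm) (by simp)]
    obtain ⟨r, t, e, hrt⟩ := shape (Ne.symm hxy) (fun z hz => (hT.two i hi z hz).symm)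
      (by rw [(hT.cnt i hi).1, hn1])
    rw [(hT.cnt i hi).2, hyP] at hrt
    have ht : t = 0 := by
      by_contra h0
      obtain ⟨t', rfl⟩ : ∃ t', t = t' + 1 := ⟨t - 1, by omega⟩
      rw [e, List.replicate_succ'] at hlastC
      have h8 : (List.replicate r y ++ x :: (List.replicate t' y ++ [y])).getLast? = some y := by
        rw [← List.cons_append, ← List.append_assoc, List.getLast?_concat]
      rw [h8] at hlastC
      exact hxy (Option.some.inj hlastC).symm
    rw [ht] at e hrt
    have h5 := hT.rel
    rw [f1, f2, f3, hpq, hpq, e] at h5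
    have h6 := mvleft hsgc hC (l := y) (q := q) hnp (P.count y) 0
    have e7 : P.count y + 0 + 1 = P.count y + 1 := by omega
    rw [e7] at h6
    have e8 : r = P.count y + 1 := by omega
    rw [e8] at h5
    rw [hpq, hpq]
    exact ω.trans (RR.symm h5) h6

end Pool.Agent.Helper92_MVO
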